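import Mathlib
import Pool.Agent.Helper49.CDC.Final

namespace Pool.Agent.Helper37.GRT

open Finset Pool.Agent.Helper49.CDC
open scoped Classical

variable {V E : Type*}

/-- duality for a linear map into a finite power of the field with two elements -/
theorem mem_range_of_dual [Fintype V] {M : Type*} [AddCommGroup M] [Module (ZMod 2) M]
    (A : M →ₗ[ZMod 2] (V → ZMod 2)) (b : V → ZMod 2)
    (h : ∀ x : V → ZMod 2, (∀ m, ∑ v, x v * A m v = 0) → ∑ v, x v * b v = 0) :
    ∃ m, A m = b := by
  by_cases hb : b ∈ LinearMap.range A
  · exact hb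
  · exfalso
    obtain ⟨φ, hφ, hr⟩ := Submodule.exists_le_ker_of_notMem hb
    have hexp : ∀ x : V → ZMod 2, φ x = ∑ v, φ (Pi.single v 1) * x v := by
      intro x
      have hx : x = ∑ v, x v • (Pi.single v 1 : V → ZMod 2) := by
        ext w
        simp [Finset.sum_apply, Pi.single_apply]
      conv_lhs => rw [hx]
      rw [map_sum]
      apply Finset.sum_congr rfl
      intro v _
      rw [map_smul, smul_eq_mul, mul_comm]
    apply hφ
    rw [hexp b]
    apply h
    intro m
    rw [← hexp]
    exact hr ⟨m, rfl⟩

theorem om_nondeg (x : W) (h : ∀ y, om x y = 0) : x = 0 := by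
  revert x; decide

theorem smul_om (a : ZMod 2) (x y : W) : om (a • x) y = a * om x y := by
  revert a x y; decide

theorem om_smul (a : ZMod 2) (x y : W) : om x (a • y) = a * om x y := by
  revert a x y; decide

/-- the part of the rotation theorem before the last linear step: `comp` maps the vertices to
groups of components -/
theorem rotGroups [Fintype V] [Fintype E] {P : Type*} [Fintype P] (ends : E → Sym2 V)
    (hl : ∀ e, ¬ (ends e).IsDiag) (Z : Set E) (hdeg : ∀ v, Deg02 ends Z v) (comp : V → P)
    (hcomp : ∀ e, e ∉ Z → ∀ u w, ends e = s(u, w) → comp u = comp w)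
    (g : E → W)
    (hz : ∀ y : V → ZMod 2, (∀ e ∈ Z, ∀ u w, ends e = s(u, w) → y u = y w) →
      ∀ K, ∑ v ∈ univ.filter (fun v => comp v = K), y v • bd ends (rs Zᶜ g) v = 0) :
    ∃ (σ : E → W) (z : P → ZMod 3), (∀ v, bd ends σ v = 0) ∧
      (∀ e, e ∉ Z → ∀ v, v ∈ ends e → σ e = rotk (z (comp v)) (g e)) ∧
      (∀ K, LL ends Z comp K (fun e => nn (σ e)) = 0) := by
  classical
  -- class of an edge
  have hab : ∀ e, ∃ a b, ends e = s(a, b) := by
    intro e
    generalize ends e = p
    induction p with
    | _ a b => exact ⟨a, b, rfl⟩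
  have hpc : ∃ pc : E → P, ∀ e, e ∉ Z → ∀ v, v ∈ ends e → comp v = pc e := by
    choose a b hab using hab
    refine ⟨fun e => comp (a e), ?_⟩
    intro e he v hv
    have h2 := hcomp e he _ _ (hab e)
    rw [hab e, Sym2.mem_iff] at hv
    rcases hv with hv | hv
    · rw [hv]
    · rw [hv, ← h2]
  obtain ⟨pc, hpc⟩ := hpc
  -- flows
  have hF : ∀ K : P, ∃ F : E → W, (∀ e, e ∉ Z → F e = 0) ∧
      ∀ v, bd ends F v = if comp v = K then bd ends (rs Zᶜ g) v else 0 := by
    intro K
    apply solveW ends hl Z
    intro y hy
    have := hz y hy K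
    rw [Finset.sum_filter] at this
    refine Eq.trans (Finset.sum_congr rfl ?_) this
    intro v _
    split_ifs
    · rfl
    · exact smul_zero _
  choose F hF0 hFb using hF
  let sg : P → E → W := fun K e => F K e + (if pc e = K then rs Zᶜ g e else 0)
  have hsg_off : ∀ K e, e ∉ Z → sg K e = if pc e = K then g e else 0 := by
    intro K e he
    change F K e + _ = _
    rw [hF0 K e he, zero_add]
    have : rs Zᶜ g e = g e := by unfold rs; simp [he]
    rw [this]
  have hsg_flow : ∀ K v, bd ends (sg K) v = 0 := by
    intro K v
    change bd ends (fun e => F K e + (if pc e = K then rs Zᶜ g e else 0)) v = 0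
    rw [bd_add, hFb]
    have : bd ends (fun e => if pc e = K then rs Zᶜ g e else 0) v =
        if comp v = K then bd ends (rs Zᶜ g) v else 0 := by
      unfold bd
      by_cases hv : comp v = K
      · rw [if_pos hv]
        apply Finset.sum_congr rfl
        intro e he
        by_cases heZ : e ∈ Z
        · simp [rs, heZ]
        · have h1 : pc e = K := by rw [← hpc e heZ v (Finset.mem_filter.1 he).2, hv]
          simp only [h1, if_true]
      · rw [if_neg hv]
        apply Finset.sum_eq_zero
        intro e he
        by_cases heZ : e ∈ Z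
        · simp [rs, heZ]
        · have h1 : pc e ≠ K := by rw [← hpc e heZ v (Finset.mem_filter.1 he).2]; exact hv
          simp only [h1, if_false]
    rw [this]
    exact W_add_self _
  -- constancy
  have hconst : ∀ K v, comp v ≠ K → ∀ e ∈ Z, ∀ e' ∈ Z, v ∈ ends e → v ∈ ends e' →
      sg K e = sg K e' := by
    intro K v hv
    apply const_at ends Z v (hdeg v) _ (hsg_flow K v)
    intro e he hve
    rw [hsg_off K e he, ← hpc e he v hve, if_neg hv]
  -- the functions T
  let T : P → P → ZMod 3 → ZMod 2 := fun K L k =>
    LL ends Z comp K (fun e => om (sg K e) (rotk k (sg L e)))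
  have hT1 : ∀ K L, K ≠ L → ∑ k, T K L k = 0 := by
    intro K L _
    change ∑ k, LL ends Z comp K (fun e => om (sg K e) (rotk k (sg L e))) = 0
    rw [← LL_sum_args]
    have : (fun e => ∑ k : ZMod 3, om (sg K e) (rotk k (sg L e))) = fun _ => 0 := by
      ext e
      rw [← om_sum_right, sum_rotk, om_zero_right]
    rw [this]
    unfold LL
    apply Finset.sum_eq_zero
    intro v _
    unfold bd rs
    simp
  have hLLoff : ∀ (u : E → ZMod 2) (M : P), (∀ v, comp v = M → ∀ e ∈ Z, ∀ e' ∈ Z,
      v ∈ ends e → v ∈ ends e' → u e = u e') → LL ends Z comp M u = 0 := by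
    intro u M h
    unfold LL
    apply Finset.sum_eq_zero
    intro v hv
    exact bd_rs_eq_zero ends Z v (hdeg v) u (h v (Finset.mem_filter.1 hv).2)
  have hT2 : ∀ K L k, K ≠ L → T K L k = T L K (-k) := by
    intro K L k hKL
    change LL ends Z comp K (fun e => om (sg K e) (rotk k (sg L e))) =
      LL ends Z comp L (fun e => om (sg L e) (rotk (-k) (sg K e)))
    have h1 : (fun e => om (sg L e) (rotk (-k) (sg K e))) =
        fun e => om (sg K e) (rotk k (sg L e)) := by
      ext e
      exact (om_rotk_neg k _ _).symm
    rw [h1]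
    have h2 := sum_LL ends hl Z comp (fun e => om (sg K e) (rotk k (sg L e)))
    rw [← Finset.add_sum_erase univ _ (mem_univ K),
      ← Finset.add_sum_erase (univ.erase K) _ (by simp [Ne.symm hKL] : L ∈ univ.erase K)] at h2
    rw [Finset.sum_eq_zero] at h2
    · rw [add_zero] at h2
      generalize LL ends Z comp K (fun e => om (sg K e) (rotk k (sg L e))) = a at h2
      generalize LL ends Z comp L (fun e => om (sg K e) (rotk k (sg L e))) = b at h2
      revert a b; decide
    · intro M hM
      have hML : M ≠ L := (Finset.mem_erase.1 hM).1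
      have hMK : M ≠ K := (Finset.mem_erase.1 (Finset.mem_erase.1 hM).2).1
      apply hLLoff
      intro v hv e he e' he' h h'
      rw [hconst K v (by rw [hv]; exact hMK) e he e' he' h h',
        hconst L v (by rw [hv]; exact hML) e he e' he' h h']
  obtain ⟨z, hzz⟩ := exists_rotation T hT1 hT2
  -- the flow sigma
  let σ : E → W := fun e => ∑ K, rotk (z K) (sg K e)
  have hσflow : ∀ v, bd ends σ v = 0 := by
    intro v
    change bd ends (fun e => ∑ K, rotk (z K) (sg K e)) v = 0
    rw [bd_sum]
    apply Finset.sum_eq_zero
    intro K _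
    rw [bd_map, hsg_flow, map_zero]
  have hσoff : ∀ e, e ∉ Z → σ e = rotk (z (pc e)) (g e) := by
    intro e he
    change ∑ K, rotk (z K) (sg K e) = _
    rw [Finset.sum_eq_single (pc e)]
    · rw [hsg_off _ e he, if_pos rfl]
    · intro K _ hK
      rw [hsg_off _ e he, if_neg (Ne.symm hK), map_zero]
    · simp
  -- conditions
  have hcond : ∀ K, LL ends Z comp K (fun e => nn (σ e)) = 0 := by
    intro K
    let ρ : E → W := fun e => ∑ L ∈ univ.erase K, rotk (z L) (sg L e)
    have hsplit : ∀ e, σ e = rotk (z K) (sg K e) + ρ e := by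
      intro e
      exact (Finset.add_sum_erase univ (fun L => rotk (z L) (sg L e)) (mem_univ K)).symm
    have h1 : (fun e => nn (σ e)) = fun e => (nn (sg K e) + nn (ρ e)) +
        ∑ L ∈ univ.erase K, om (sg K e) (rotk (z L - z K) (sg L e)) := by
      ext e
      rw [hsplit e, nn_add, nn_rotk]
      congr 1
      change om (rotk (z K) (sg K e)) (∑ L ∈ univ.erase K, rotk (z L) (sg L e)) = _
      rw [om_sum_right]
      apply Finset.sum_congr rfl
      intro L _
      exact om_rotk _ _ _ _
    rw [h1, LL_add, LL_add, LL_sum_args]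
    have h2 : LL ends Z comp K (fun e => nn (sg K e)) = 0 := by
      have h3 := sum_LL ends hl Z comp (fun e => nn (sg K e))
      rw [← Finset.add_sum_erase univ _ (mem_univ K)] at h3
      rw [Finset.sum_eq_zero, add_zero] at h3
      · exact h3
      · intro M hM
        apply hLLoff
        intro v hv e he e' he' h h'
        rw [hconst K v (by rw [hv]; exact (Finset.mem_erase.1 hM).1) e he e' he' h h']
    have h3 : LL ends Z comp K (fun e => nn (ρ e)) = 0 := by
      apply hLLoff
      intro v hv e he e' he' h h'
      have : ρ e = ρ e' := by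
        apply Finset.sum_congr rfl
        intro L hL
        rw [hconst L v (by rw [hv]; exact Ne.symm (Finset.mem_erase.1 hL).1) e he e' he' h h']
      rw [this]
    rw [h2, h3, zero_add, zero_add]
    exact hzz K
  refine ⟨σ, z, hσflow, ?_, hcond⟩
  intro e he v hv
  rw [hσoff e he, hpc e he v hv]

/-- at a vertex with 0 or 2 edges in `Z` the boundary of `om σ c` is `om` of the boundary of `σ`
with `c`, when `c` is constant along `Z` -/
theorem bd_om [Fintype E] (ends : E → Sym2 V) (Z : Set E) (σ : E → W) (c : E → W) (v : V) (w : W)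
    (hc : ∀ e ∈ Z, v ∈ ends e → c e = w) :
    bd ends (rs Z (fun e => om (σ e) (c e))) v = om (bd ends (rs Z σ) v) w := by
  rw [bd_rs, bd_rs, om_sum_left]
  apply Finset.sum_congr rfl
  intro e he
  simp only [Finset.mem_filter, Finset.mem_univ, true_and] at he
  rw [hc e he.2 he.1]

/-- GROUP ROTATION THEOREM. `comp` maps the vertices to the groups, `Z` is a union of disjoint
cycles, `g` a nowhere-zero flow of the graph with the cycles contracted. (hz): every group is
balanced on every cycle. (hrob): for all rotations constant on the groups, the only solutions of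
the balance equations are the unions of groups. -/
theorem groupCDC [Fintype V] [Fintype E] {P : Type*} [Fintype P] (ends : E → Sym2 V)
    (hl : ∀ e, ¬ (ends e).IsDiag) (Z : Set E) (hdeg : ∀ v, Deg02 ends Z v) (comp : V → P)
    (hcomp : ∀ e, e ∉ Z → ∀ u w, ends e = s(u, w) → comp u = comp w)
    (g : E → W) (hg : ∀ e, e ∉ Z → g e ≠ 0)
    (hz : ∀ y : V → ZMod 2, (∀ e ∈ Z, ∀ u w, ends e = s(u, w) → y u = y w) →
      ∀ K, ∑ v ∈ univ.filter (fun v => comp v = K), y v • bd ends (rs Zᶜ g) v = 0)
    (hrob : ∀ (z : P → ZMod 3) (x : V → ZMod 2),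
      (∀ e, e ∉ Z → ∀ u w, ends e = s(u, w) → x u = x w) →
      (∀ y : V → ZMod 2, (∀ e ∈ Z, ∀ u w, ends e = s(u, w) → y u = y w) →
        ∑ v, (y v * x v) • rotk (z (comp v)) (bd ends (rs Zᶜ g) v) = 0) →
      ∀ u w, comp u = comp w → x u = x w) :
    ∃ D : Fin 5 → Set E, D 0 = Z ∧ IsFiveCDC ends D := by
  classical
  obtain ⟨σ, z, hσ, hoff, hcond⟩ := rotGroups ends hl Z hdeg comp hcomp g hz
  -- vertex functions constant along Z
  let Y : Submodule (ZMod 2) (V → W) :=
    { carrier := {c | ∀ e ∈ Z, ∀ u w, ends e = s(u, w) → c u = c w}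
      add_mem' := by
        intro a b ha hb e he u w h
        change a u + b u = a w + b w
        rw [ha e he u w h, hb e he u w h]
      zero_mem' := by intro e he u w h; rfl
      smul_mem' := by
        intro t a ha e he u w h
        change t • a u = t • a w
        rw [ha e he u w h] }
  have hab : ∀ e, ∃ a b, ends e = s(a, b) := by
    intro e
    generalize ends e = p
    induction p with
    | _ a b => exact ⟨a, b, rfl⟩
  choose pa pb hpab using hab
  -- boundary of sigma on Z
  have hbs : ∀ v, bd ends (rs Z σ) v = rotk (z (comp v)) (bd ends (rs Zᶜ g) v) := by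
    intro v
    have h1 : bd ends (rs Z σ) v + bd ends (rs Zᶜ σ) v = 0 := by
      rw [← bd_add, ← hσ v]
      congr 1
      ext e
      · unfold rs
        by_cases he : e ∈ Z <;> simp [he]
      · unfold rs
        by_cases he : e ∈ Z <;> simp [he]
    have h2 : bd ends (rs Zᶜ σ) v = rotk (z (comp v)) (bd ends (rs Zᶜ g) v) := by
      rw [← bd_map]
      unfold bd
      apply Finset.sum_congr rfl
      intro e he
      have hve := (Finset.mem_filter.1 he).2
      by_cases heZ : e ∈ Z
      · simp [rs, heZ]
      · simp only [rs, Set.mem_compl_iff, heZ, not_false_eq_true, if_true]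
        exact hoff e heZ v hve
    rw [← h2]
    exact W_eq_of_add _ _ h1
  -- the linear map
  let A1 : Y →ₗ[ZMod 2] (V → ZMod 2) :=
    { toFun := fun c v => om (bd ends (rs Z σ) v) (c.1 v)
      map_add' := by
        intro c c'
        ext v
        exact om_add_right _ _ _
      map_smul' := by
        intro t c
        ext v
        change om _ (t • c.1 v) = t * om _ (c.1 v)
        exact om_smul _ _ _ }
  let A2 : (E → ZMod 2) →ₗ[ZMod 2] (V → ZMod 2) :=
    { toFun := fun F v => bd ends (rs Zᶜ F) v
      map_add' := by
        intro F G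
        ext v
        change bd ends (rs Zᶜ (F + G)) v = bd ends (rs Zᶜ F) v + bd ends (rs Zᶜ G) v
        rw [← bd_add]
        congr 1
        ext e
        unfold rs
        split_ifs <;> simp
      map_smul' := by
        intro c F
        ext v
        change bd ends (rs Zᶜ (c • F)) v = c * bd ends (rs Zᶜ F) v
        unfold bd
        rw [Finset.mul_sum]
        apply Finset.sum_congr rfl
        intro e _
        unfold rs
        split_ifs <;> simp }
  obtain ⟨⟨c, F⟩, hcF⟩ := mem_range_of_dual (LinearMap.coprod A1 A2)
    (fun v => bd ends (rs Z (fun e => nn (σ e))) v) (by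
    intro x hx
    -- x is constant along edges off Z
    have hx2 : ∀ e, e ∉ Z → ∀ u w, ends e = s(u, w) → x u = x w := by
      intro e he u w hew
      have huw : u ≠ w := by
        have := hl e
        rw [hew] at this
        simpa using this
      have h1 := hx (0, Pi.single e 1)
      have h2 : ∀ v, (LinearMap.coprod A1 A2) (0, Pi.single e 1) v =
          (Pi.single u 1 + Pi.single w 1 : V → ZMod 2) v := by
        intro v
        rw [LinearMap.coprod_apply, map_zero, zero_add]
        change bd ends (rs Zᶜ (Pi.single e 1)) v = _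
        unfold bd
        rw [Finset.sum_filter, Finset.sum_eq_single e]
        · rw [hew]
          simp only [Sym2.mem_iff, rs, Set.mem_compl_iff, he, not_false_eq_true, if_true,
            Pi.single_eq_same, Pi.add_apply, Pi.single_apply]
          by_cases hvu : v = u
          · subst hvu; simp [huw]
          · by_cases hvw : v = w
            · subst hvw; simp [hvu]
            · simp [hvu, hvw]
        · intro e' _ hne
          simp [rs, hne]
        · simp
      simp only [h2] at h1
      simp only [Pi.add_apply, mul_add, Finset.sum_add_distrib, Pi.single_apply, mul_ite, mul_one,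
        mul_zero, Finset.sum_ite_eq', Finset.mem_univ, if_true] at h1
      generalize x u = a at h1
      generalize x w = b at h1
      revert a b; decide
    have hx1 : ∀ u w, comp u = comp w → x u = x w := by
      apply hrob z x hx2
      intro y hy
      apply om_nondeg
      intro w
      have h1 := hx (⟨fun v => y v • w, by
        intro e he u w' h
        change y u • w = y w' • w
        rw [hy e he u w' h]⟩, 0)
      rw [om_sum_left]
      refine Eq.trans (Finset.sum_congr rfl ?_) h1
      intro v _
      rw [LinearMap.coprod_apply, map_zero, add_zero, ← hbs v]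
      change om ((y v * x v) • bd ends (rs Z σ) v) w = x v * om (bd ends (rs Z σ) v) (y v • w)
      rw [smul_om, om_smul]
      ring
    -- x factors through comp
    rw [← Finset.sum_fiberwise univ comp]
    apply Finset.sum_eq_zero
    intro K _
    by_cases hK : ∃ v, comp v = K
    · obtain ⟨v0, rfl⟩ := hK
      have h1 : ∑ v ∈ univ.filter (fun v => comp v = comp v0),
          x v * bd ends (rs Z (fun e => nn (σ e))) v =
          x v0 * LL ends Z comp (comp v0) (fun e => nn (σ e)) := by
        unfold LL
        rw [Finset.mul_sum]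
        apply Finset.sum_congr rfl
        intro v hv
        rw [hx1 v v0 (Finset.mem_filter.1 hv).2]
      rw [h1, hcond, mul_zero]
    · push Not at hK
      rw [Finset.filter_false_of_mem (fun v _ => hK v), Finset.sum_empty])
  -- the new flow
  let ce : E → W := fun e => if e ∈ Z then c.1 (pa e) else 0
  have hce : ∀ v, ∀ e ∈ Z, v ∈ ends e → ce e = c.1 v := by
    intro v e he hv
    change (if e ∈ Z then c.1 (pa e) else 0) = _
    rw [if_pos he]
    rw [hpab e, Sym2.mem_iff] at hv
    rcases hv with rfl | rfl
    · rfl
    · exact c.2 e he _ _ (hpab e)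
  have hce0 : ∀ e, e ∉ Z → ce e = 0 := by
    intro e he
    change (if e ∈ Z then c.1 (pa e) else 0) = _
    rw [if_neg he]
  have hceflow : ∀ v, bd ends ce v = 0 := by
    intro v
    have h1 : bd ends ce v = bd ends (rs Z ce) v := by
      congr 1
      ext e : 1
      unfold rs
      split_ifs with h
      · rfl
      · exact hce0 e h
    rw [h1, bd_rs]
    rcases hdeg v with h0 | h2
    · rw [Finset.card_eq_zero] at h0
      rw [h0, Finset.sum_empty]
    · obtain ⟨a, b, hab, hs⟩ := Finset.card_eq_two.1 h2
      rw [hs, Finset.sum_pair hab]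
      have ha : a ∈ univ.filter (fun e => v ∈ ends e ∧ e ∈ Z) := by rw [hs]; simp
      have hb : b ∈ univ.filter (fun e => v ∈ ends e ∧ e ∈ Z) := by rw [hs]; simp
      simp only [Finset.mem_filter, Finset.mem_univ, true_and] at ha hb
      rw [hce v a ha.2 ha.1, hce v b hb.2 hb.1]
      exact W_add_self _
  let σ' : E → W := fun e => σ e + ce e
  have hbt : ∀ v, bd ends (rs Z (fun e => nn (σ' e))) v = bd ends (rs Zᶜ F) v := by
    intro v
    have h1 : bd ends (rs Z (fun e => nn (σ' e))) v =
        bd ends (rs Z (fun e => nn (σ e))) v + bd ends (rs Z (fun e => om (σ e) (ce e))) v := by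
      have h2 : bd ends (rs Z (fun e => nn (ce e))) v = 0 := by
        apply bd_rs_eq_zero ends Z v (hdeg v)
        intro e he e' he' h h'
        rw [hce v e he h, hce v e' he' h']
      rw [← add_zero (bd ends (rs Z (fun e => nn (σ e))) v + _), ← h2, ← bd_add, ← bd_add]
      congr 1
      ext e
      unfold rs
      by_cases he : e ∈ Z
      · simp only [he, if_true]
        change nn (σ e + ce e) = _
        rw [nn_add]
        ring
      · simp [he]
    rw [h1, bd_om ends Z σ ce v (c.1 v) (hce v)]
    have h3 := congrFun hcF v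
    rw [LinearMap.coprod_apply] at h3
    change om (bd ends (rs Z σ) v) (c.1 v) + bd ends (rs Zᶜ F) v =
      bd ends (rs Z (fun e => nn (σ e))) v at h3
    rw [← h3]
    generalize om (bd ends (rs Z σ) v) (c.1 v) = a
    generalize bd ends (rs Zᶜ F) v = b
    revert a b; decide
  apply fiveCDC ends Z hdeg σ' (fun e => rs Z (fun e => nn (σ' e)) e + rs Zᶜ F e)
  · intro v
    change bd ends (fun e => σ e + ce e) v = 0
    rw [bd_add, hσ, hceflow, add_zero]
  · intro v
    rw [bd_add, hbt]
    exact Z_add_self _
  · intro e he
    change σ e + ce e ≠ 0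
    rw [hce0 e he, add_zero, hoff e he (pa e) (by rw [hpab e]; simp)]
    exact rotk_ne_zero _ _ (hg e he)
  · intro e he
    change rs Z (fun e => nn (σ' e)) e + rs Zᶜ F e = _
    simp [rs, he]

end Pool.Agent.Helper37.GRT
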